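import Pool.Agent.H13.SN1
import Pool.Agent.H13.SN5

namespace Pool.Agent.Results.MP_d3d931_al.Both

open Pool.Agent.H13.SN

universe u

theorem result :
    (∀ (S : Type u) [Semigroup S], Supernilpotent S → LeftNilpotent S ∧ RightNilpotent S) ∧
    (∀ (M : Type u) [Monoid M], Supernilpotent M → LeftNilpotent M ∧ RightNilpotent M) ∧
    ∃ (S : Type) (_ : Semigroup S), LeftNilpotent S ∧ RightNilpotent S ∧ ¬ Supernilpotent S :=
  ⟨fun _ _ => nil_of_supernil, fun _ _ => nil_of_supernil,
    X, inferInstance, X_good.nil.1, X_good.nil.2, X_not⟩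

end Pool.Agent.Results.MP_d3d931_al.Both
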